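import Mathlib
import Pool.Agent.Lib.helper13.TangMinor

set_option autoImplicit false

namespace Pool.Agent.Results.MP_0e5d84_co.Counter

open Pool.Agent.Lib.H13Tang Set Submodule
open scoped Matroid

/-- In every representation over `F`, some `k` linear functionals have no common zero among the
points: the critical exponent is at most `k`. -/
def CritExpLE {α : Type} (F : Type) [Field F] (k : ℕ) (M : Matroid α) : Prop :=
  ∀ (d : ℕ) (φ : α → (Fin d → F)), (∀ I ⊆ M.E, (M.Indep I ↔ LinearIndepOn F φ I)) →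
    ∃ L : (Fin d → F) →ₗ[F] (Fin k → F), ∀ e ∈ M.E, L (φ e) ≠ 0

/-- Tangential `k`-blocks over `F`. -/
def IsTangentialBlock {α : Type} (F : Type) [Field F] (k : ℕ) (M : Matroid α) : Prop :=
  Simple M ∧ Representable F M ∧ ¬ CritExpLE F k M ∧
    ∀ N : Matroid α, N.IsStrictMinor M → Simple N → CritExpLE F k N

/-- The lattice of flats has a maximal chain consisting of modular flats. -/
def Supersolvable {α : Type} (M : Matroid α) : Prop :=
  ∃ Ch : Set (Set α), Maximal (fun Dh : Set (Set α) => IsChain (· ⊆ ·) Dh ∧ ∀ X ∈ Dh, M.IsFlat X) Ch ∧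
    ∀ X ∈ Ch, IsModularFlat M X

/-- The size function of the class of `F`-representable geometries with no minor in `B`. -/
noncomputable def sizeEx (F : Type) [Field F] (B : ∀ m : ℕ, Matroid (Fin m) → Prop) (n : ℕ) : ℕ∞ :=
  ⨆ (m : ℕ) (M : Matroid (Fin m)) (_ : M.E = Set.univ ∧ Simple M ∧ Representable F M ∧
    rk M M.E = n ∧ ∀ N : Matroid (Fin m), N.IsMinor M → ¬ B m N), (m : ℕ∞)

theorem exists_hyperplane {α : Type} [Finite α] {M : Matroid α} (h : Supersolvable M)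
    (h0 : ¬ M.E ⊆ M.closure ∅) : ∃ H, IsModularFlat M H ∧ rk M H + 1 = rk M M.E := by
  obtain ⟨Ch, hmax, hmod⟩ := h
  have hins : ∀ G, M.IsFlat G → (∀ X ∈ Ch, X ⊆ G ∨ G ⊆ X) → G ∈ Ch := fun G hG hc =>
    hmax.2 (y := insert G Ch) ⟨hmax.1.1.insert fun X hX _ => (hc X hX).symm, by
      rintro X (rfl | hX)
      exacts [hG, hmax.1.2 X hX]⟩ (Set.subset_insert _ _) (Set.mem_insert _ _)
  have hbot : M.closure ∅ ∈ Ch := hins _ (M.isFlat_closure _) fun X hX =>
    Or.inr ((hmax.1.2 X hX).closure ▸ M.closure_subset_closure (Set.empty_subset X))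
  obtain ⟨H, ⟨hH, hHE⟩, hHmax⟩ := Set.exists_max_image {X | X ∈ Ch ∧ ¬ M.E ⊆ X} (rk M)
    (Set.toFinite _) ⟨_, hbot, h0⟩
  have hf := hmax.1.2 H hH
  obtain ⟨a, haE, haH⟩ := Set.not_subset.1 hHE
  have h1 := rk_insert haE (X := H) (by rwa [hf.closure])
  have hsub : H ⊆ M.closure (insert a H) :=
    (Set.subset_insert _ _).trans (M.subset_closure _ (Set.insert_subset haE hf.subset_ground))
  have h2 : M.closure (insert a H) ∈ Ch := hins _ (M.isFlat_closure _) fun X hX => by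
    by_cases hXE : M.E ⊆ X
    · exact Or.inr ((M.closure_subset_ground _).trans hXE)
    · refine Or.inl (subset_trans ?_ hsub)
      by_contra hXH
      have h3 : H ⊆ X := (hmax.1.1.total hX hH).resolve_left hXH
      have := rk_lt_of_flat hf (hmax.1.2 X hX).subset_ground ⟨h3, hXH⟩
      have := hHmax X ⟨hX, hXE⟩
      omega
  refine ⟨H, hmod H hH, ?_⟩
  by_cases h3 : M.E ⊆ M.closure (insert a H)
  · have := rk_mono M h3
    have := rk_mono M (Set.insert_subset haE hf.subset_ground)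
    rw [rk_closure] at *
    omega
  · have := hHmax _ ⟨h2, h3⟩
    rw [rk_closure] at this
    omega

section general

variable {α F V : Type} [Field F] [AddCommGroup V] [Module F V] {M : Matroid α} {φ : α → V}

theorem minor_pos [Finite α] [Fintype F] [FiniteDimensional F V] (h : Rep F M φ) (hs : Simple M)
    (h3 : Module.finrank F V = 3)
    (htan : ∀ a ∈ M.E, ∃ l : V →ₗ[F] F, l (φ a) = 0 ∧ ∀ e ∈ M.E, e ≠ a → l (φ e) ≠ 0)
    {C D : Set α} (hC : C ⊆ M.E) (hD : D ⊆ M.E) (hne : (C ∪ D).Nonempty)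
    (hl : ∀ e ∈ (M ／ C ＼ D).E, (M ／ C ＼ D).Indep {e}) :
    0 < charPoly (M ／ C ＼ D) ((Fintype.card F : ℤ) ^ 1) := by
  rw [h.minor_pos_iff hC]
  rcases C.eq_empty_or_nonempty with rfl | ⟨a, ha⟩
  · rw [empty_union] at hne
    obtain ⟨d, hd⟩ := hne
    obtain ⟨l, -, hl⟩ := htan d (hD hd)
    exact ⟨LinearMap.pi fun _ => l, fun x hx => hx.elim, fun e he _ heD h0 =>
      hl e he (fun e' => heD (e' ▸ hd)) (congrFun h0 0)⟩
  have hn : ∀ e ∈ M.E, e ∉ C → e ∉ D → φ e ∉ span F (φ '' C) := fun e he h1 h2 =>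
    h.notMem_span_of_nonloop hC (hl e ⟨⟨he, h1⟩, h2⟩)
  have hq := (span F (φ '' C)).finrank_quotient_add_finrank
  rcases lt_trichotomy (Module.finrank F (span F (φ '' C))) 2 with h2 | h2 | h2
  · obtain ⟨l, hl0, hl⟩ := htan a (hC ha)
    have h4 : span F {φ a} = span F (φ '' C) :=
      Submodule.eq_of_le_of_finrank_le (span_mono (singleton_subset_iff.2 ⟨a, ha, rfl⟩))
        (by rw [finrank_span_singleton (h.ne_zero hs (hC ha))]; omega)
    refine ⟨LinearMap.pi fun _ => l, fun x hx => ?_, fun e he h1 _ h0 =>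
      hl e he (fun e' => h1 (e' ▸ ha)) (congrFun h0 0)⟩
    obtain ⟨c, hc⟩ := mem_span_singleton.1 (h4 ▸ subset_span ⟨x, hx, rfl⟩ : φ x ∈ span F {φ a})
    funext z
    simp [← hc, hl0]
  · let ε := LinearEquiv.ofFinrankEq (R := F) (V ⧸ span F (φ '' C)) (Fin 1 → F) (by simp; omega)
    have hz : ∀ w, (ε.toLinearMap ∘ₗ (span F (φ '' C)).mkQ) w = 0 ↔ w ∈ span F (φ '' C) :=
      fun w => by simp
    exact ⟨_, fun x hx => (hz _).2 (subset_span ⟨x, hx, rfl⟩), fun e he h1 h2 h0 =>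
      hn e he h1 h2 ((hz _).1 h0)⟩
  · have : span F (φ '' C) = ⊤ := Submodule.eq_top_of_finrank_eq (by omega)
    exact ⟨0, fun _ _ => rfl, fun e he h1 h2 _ => hn e he h1 h2 (this ▸ mem_top)⟩

theorem critExpLE_iff [Finite α] [Fintype F] [FiniteDimensional F V] (h : Rep F M φ) (k : ℕ) :
    CritExpLE F k M ↔ ∃ L : V →ₗ[F] (Fin k → F), ∀ e ∈ M.E, L (φ e) ≠ 0 := by
  rw [← h.critLE_iff]
  constructor
  · intro hc
    obtain ⟨d, ψ, hψ⟩ := h.representable
    exact (Rep.critLE_iff hψ k).2 (hc d ψ hψ)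
  · exact fun hc d ψ hψ => (Rep.critLE_iff hψ k).1 hc

theorem all_crit [Finite α] [Fintype F] [FiniteDimensional F V] (h : Rep F M φ) (k : ℕ)
    (hM : ∀ N : Matroid α, N.IsMinor M → ¬ IsTangentialBlock F k N) :
    ∀ (m : ℕ) (N : Matroid α), N.E.ncard = m → N.IsMinor M → Simple N → CritExpLE F k N := by
  intro m
  induction m using Nat.strong_induction_on with
  | _ m ih =>
    intro N hm hN hs
    by_contra hc
    refine hM N hN ⟨hs, ?_, hc, fun N' hN' hs' => ih _ (hm ▸ ncard_lt_ncard hN'.ssubset) N' rfl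
      (hN'.isMinor.trans hN) hs'⟩
    obtain ⟨C, D, hC, -, -, rfl⟩ := hN.exists_eq_contract_delete_disjoint
    exact ((h.contractSet hC).delete D).representable

theorem tangent [Finite α] [Fintype F] [FiniteDimensional F V] (h : Rep F M φ) (hs : Simple M)
    (k : ℕ) (hM : ∀ N : Matroid α, N.IsMinor M → Simple N → CritExpLE F k N) {a : α}
    (ha : a ∈ M.E) : ∃ L : V →ₗ[F] (Fin k → F), L (φ a) = 0 ∧ ∀ e ∈ M.E, e ≠ a → L (φ e) ≠ 0 := by
  obtain ⟨π, hπ⟩ := exists_proj (F := F) (φ a)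
  have hc := h.contract (hs.isNonloop ha) π hπ
  obtain ⟨R, hR, hRs, hRe⟩ := hc.exists_simple (fun e he h0 => by
    have : φ e ∈ LinearMap.ker π := h0
    rw [hπ, Submodule.mem_span_singleton] at this
    obtain ⟨c, hc⟩ := this
    exact he.2 (h.eq_of_smul hs he.1 ha one_ne_zero (by rw [one_smul, hc])))
  have hrep : Rep F ((M ／ {a}) ↾ R) (π ∘ φ) := fun I hI => by
    rw [Matroid.restrict_ground_eq] at hI
    rw [Matroid.restrict_indep_iff, and_iff_left hI, hc I (hI.trans hR)]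
  obtain ⟨L, hL⟩ := (critExpLE_iff hrep k).1
    (hM _ ⟨{a}, (M ／ {a}).E \ R, (Matroid.delete_compl hR).symm⟩ hRs)
  refine ⟨L ∘ₗ π, ?_, fun e he hea => ?_⟩
  · have : φ a ∈ LinearMap.ker π := hπ ▸ Submodule.mem_span_singleton_self _
    rw [LinearMap.comp_apply, LinearMap.mem_ker.1 this, map_zero]
  · obtain ⟨x, hx, c, hc, hc0⟩ := hRe e ⟨he, hea⟩
    have h1 : π (φ e) = c • π (φ x) := hc
    rw [LinearMap.comp_apply, h1, map_smul]
    exact smul_ne_zero hc0 (hL x hx)

theorem nine [Fintype F] [FiniteDimensional F V] (hq : Fintype.card F = 4)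
    (h3 : Module.finrank F V = 3) (v : Fin 9 → V)
    (hv : ∀ i j, i ≠ j → Module.finrank F (span F {v i, v j}) = 2)
    (h1 : ∀ i, Module.finrank F (span F {v i}) = 1)
    (L0 : V →ₗ[F] (Fin 1 → F)) (hL0 : ∀ i, L0 (v i) ≠ 0)
    (L : Fin 9 → V →ₗ[F] (Fin 1 → F)) (hL : ∀ i j, L i (v j) = 0 ↔ j = i) : False := by
  classical
  have : Finite (V →ₗ[F] (Fin 1 → F)) := Module.finite_of_finite F
  have := Fintype.ofFinite (V →ₗ[F] (Fin 1 → F))
  have hcard : ∀ S : Submodule F V, (Finset.univ.filter fun w : V →ₗ[F] (Fin 1 → F) =>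
      S ≤ LinearMap.ker w).card = 4 ^ (3 - Module.finrank F S) := fun S => by
    rw [← Fintype.card_subtype, ← Nat.card_eq_fintype_card, card_vanish, hq, h3, pow_one]
  let x : (V →ₗ[F] (Fin 1 → F)) → Fin 9 → ℤ := fun w i => if w (v i) = 0 then 1 else 0
  have s0 : ∑ _w : V →ₗ[F] (Fin 1 → F), (1 : ℤ) = 64 := by
    have := hcard ⊥
    simp only [bot_le, Finset.filter_true, finrank_bot] at this
    simp [this]
  have s1 : ∀ i, ∑ w, x w i = 16 := fun i => by
    have := hcard (span F {v i})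
    simp only [h1, span_le, singleton_subset_iff, SetLike.mem_coe, LinearMap.mem_ker] at this
    simp [x, this]
  have s2 : ∀ i j, ∑ w, x w i * x w j = if i = j then 16 else 4 := fun i j => by
    split_ifs with hij
    · subst hij
      rw [← s1 i]
      exact Finset.sum_congr rfl fun w _ => by simp [x]
    · have := hcard (span F {v i, v j})
      simp only [hv i j hij, span_le, insert_subset_iff, singleton_subset_iff, SetLike.mem_coe,
        LinearMap.mem_ker] at this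
      simp [x, ← ite_and, and_comm, this]
  have tot : ∑ w, (∑ i, x w i - 3) ^ 2 = 144 := by
    have : ∀ w, (∑ i, x w i - 3) ^ 2 = ∑ i, ∑ j, x w i * x w j - 6 * ∑ i, x w i + 9 * 1 :=
      fun w => by rw [← Finset.sum_mul_sum]; ring
    have t1 : ∑ w, ∑ i, x w i = 144 := by
      rw [Finset.sum_comm]; simp [s1]
    have t2 : ∑ w, ∑ i, ∑ j, x w i * x w j = 432 := by
      rw [Finset.sum_comm, Finset.sum_congr rfl fun i _ => Finset.sum_comm]
      simp only [s2]
      decide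
    rw [Finset.sum_congr rfl fun w _ => this w, Finset.sum_add_distrib, Finset.sum_sub_distrib,
      ← Finset.mul_sum, ← Finset.mul_sum, s0, t1, t2]
    norm_num
  let g : Fˣ × Fin 9 → (V →ₗ[F] (Fin 1 → F)) := fun p => (p.1 : F) • L p.2
  have hg0 : ∀ p j, g p (v j) = 0 ↔ j = p.2 := fun p j => by simp [g, hL]
  have hg : Function.Injective g := by
    rintro ⟨c, i⟩ ⟨d, j⟩ e
    obtain rfl : i = j := (hg0 (d, j) i).1 (e ▸ (hg0 (c, i) i).2 rfl)
    obtain ⟨k, hk⟩ := exists_ne i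
    have e1 : (c : F) • L i (v k) = (d : F) • L i (v k) := LinearMap.congr_fun e (v k)
    rw [Units.ext (smul_left_injective F (fun h => hk ((hL i k).1 h)) e1)]
  have hx : ∀ p, ∑ i, x (g p) i = 1 := fun p => by simp [x, hg0]
  have hx0 : ∑ i, x L0 i = 0 := by simp [x, hL0]
  have hx1 : ∑ i, x 0 i = 9 := by simp [x]
  have n1 : L0 ∉ Finset.univ.image g := by
    simp only [Finset.mem_image, Finset.mem_univ, true_and, not_exists]
    exact fun p e => by have := hx p; rw [e, hx0] at this; omega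
  have n2 : (0 : V →ₗ[F] (Fin 1 → F)) ∉ insert L0 (Finset.univ.image g) := by
    simp only [Finset.mem_insert, Finset.mem_image, Finset.mem_univ, true_and, not_or, not_exists]
    exact ⟨fun e => by rw [← e, hx1] at hx0; omega,
      fun p e => by have := hx p; rw [e, hx1] at this; omega⟩
  have := Finset.sum_le_sum_of_subset_of_nonneg (f := fun w => (∑ i, x w i - 3) ^ 2)
    (Finset.subset_univ (insert 0 (insert L0 (Finset.univ.image g)))) fun _ _ _ => sq_nonneg _
  rw [tot, Finset.sum_insert n2, Finset.sum_insert n1, Finset.sum_image hg.injOn, hx0, hx1] at this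
  simp [hx, Fintype.card_units, hq] at this

end general

instance : Fact (∀ r : ZMod 2, r ^ 2 ≠ 1 + 1 * r) := ⟨by decide⟩

/-- The field with four elements. -/
abbrev F4 : Type := QuadraticAlgebra (ZMod 2) 1 1

instance : Fintype F4 := Fintype.ofEquiv _ (QuadraticAlgebra.equivProd _ _).symm

/-- The 9 points of the Hermitian curve. -/
def pt : Fin 9 → Fin 3 → F4 :=
  ![![⟨1, 0⟩, ⟨1, 0⟩, 0], ![⟨1, 0⟩, ⟨0, 1⟩, 0], ![⟨1, 0⟩, ⟨1, 1⟩, 0],
    ![⟨1, 0⟩, 0, ⟨1, 0⟩], ![⟨1, 0⟩, 0, ⟨0, 1⟩], ![⟨1, 0⟩, 0, ⟨1, 1⟩],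
    ![0, ⟨1, 0⟩, ⟨1, 0⟩], ![0, ⟨1, 0⟩, ⟨0, 1⟩], ![0, ⟨1, 0⟩, ⟨1, 1⟩]]

theorem pt_tan : ∀ i j, pt j ⬝ᵥ star (pt i) = 0 ↔ j = i := by decide +kernel

theorem pt_miss : ∀ a b c : F4, (a = 0 ∧ b = 0 ∧ c = 0) ∨ ∃ w ∈ ([![1, 0, 0], ![0, 1, 0],
    ![0, 0, 1], ![1, 1, 1], ![1, ⟨0, 1⟩, ⟨1, 1⟩], ![1, ⟨1, 1⟩, ⟨0, 1⟩], ![1, 1, ⟨0, 1⟩],
    ![1, 1, ⟨1, 1⟩], ![1, ⟨0, 1⟩, 1], ![1, ⟨1, 1⟩, 1], ![1, ⟨0, 1⟩, ⟨0, 1⟩],
    ![1, ⟨1, 1⟩, ⟨1, 1⟩]] : List (Fin 3 → F4)),
    (∀ i, pt i ⬝ᵥ w = 0 → pt i 0 * a + pt i 1 * b + pt i 2 * c ≠ 0) ∧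
      ∃ e f, e ≠ f ∧ pt e ⬝ᵥ w = 0 ∧ pt f ⬝ᵥ w = 0 := by
  decide +kernel

theorem result : ∃ (F : Type) (_ : Field F) (_ : Fintype F) (k n : ℕ), 1 ≤ k ∧ 1 ≤ n ∧
    sizeEx F (fun _ N => IsTangentialBlock F k N) n <
      sizeEx F (fun _ N => IsTangentialBlock F k N ∧ Supersolvable N) n := by
  have hc : Fintype.card F4 = 4 := by decide
  refine ⟨F4, inferInstance, inferInstance, 1, 3, le_rfl, by norm_num,
    lt_of_le_of_lt (b := 8) (iSup_le fun m => iSup_le fun M => iSup_le ?_)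
      (lt_of_lt_of_le (b := ((9 : ℕ) : ℕ∞)) (by decide) ?_)⟩
  · rintro ⟨hE, hs, ⟨d, φ, hφ⟩, hr, hM⟩
    obtain ⟨n, ψ, h, hsp⟩ := Rep.exists_spanning hφ
    have hall := fun N => all_crit h 1 hM _ N rfl
    have hmem : ∀ x, x ∈ M.E := fun x => hE ▸ mem_univ x
    by_contra hm
    have hm' : 9 ≤ m := by
      by_contra h9
      exact hm (by exact_mod_cast (by omega : m ≤ 8))
    obtain ⟨L0, hL0⟩ := (critExpLE_iff h 1).1 (hall M Matroid.IsMinor.refl hs)
    choose L hL1 hL2 using fun a => tangent h hs 1 hall (hmem a)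
    refine nine hc (by rw [← hr, h.rk_eq subset_rfl, hsp, finrank_top])
      (fun i => ψ (Fin.castLE hm' i)) (fun i j hij => ?_)
      (fun i => finrank_span_singleton (h.ne_zero hs (hmem _))) L0 (fun i => hL0 _ (hmem _))
      (fun i => L (Fin.castLE hm' i)) fun i j => ⟨fun h0 => ?_, fun e => e ▸ hL1 _⟩
    · rw [← image_pair, ← h.rk_eq (fun x _ => hmem x), rk_indep (hs _ (hmem _) _ (hmem _)),
        ncard_pair ((Fin.castLE_injective hm').ne hij)]
    · by_contra hij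
      exact hL2 _ _ (hmem _) ((Fin.castLE_injective hm').ne hij) h0
  have h : Rep F4 (linMat F4 pt univ) pt := linMat_rep _ _
  have hs : Simple (linMat F4 pt univ) := fun e _ f _ => by
    have h0 : ∀ i, pt i ≠ 0 := by decide +kernel
    rw [h _ (subset_univ _)]
    by_cases hef : e = f
    · subst hef
      simpa using h0 e
    rw [linearIndepOn_pair_iff _ hef (h0 e)]
    intro c hc
    exact hef ((pt_tan e f).1 (by rw [← hc, smul_dotProduct, (pt_tan e e).2 rfl, smul_zero])).symm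
  have hr : rk (linMat F4 pt univ) (linMat F4 pt univ).E = 3 := by
    refine le_antisymm ?_ ?_
    · rw [h.rk_eq subset_rfl]
      exact (Submodule.finrank_le _).trans (by simp)
    · have h1 := rk_insert (M := linMat F4 pt univ) (e := 3) trivial (X := {0, 1}) fun hm => by
        rw [h.mem_closure (subset_univ _), image_pair, mem_span_pair] at hm
        obtain ⟨-, a, b, hab⟩ := hm
        have : (0 : F4) = ⟨1, 0⟩ := by simpa [pt] using congrFun hab 2
        exact absurd this (by decide)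
      have h2 := rk_mono (linMat F4 pt univ) (subset_univ (insert 3 {0, 1}))
      rw [h1, rk_indep (hs 0 trivial 1 trivial), ncard_pair (by decide)] at h2
      exact h2
  refine le_iSup_of_le 9 (le_iSup_of_le (linMat F4 pt univ) (le_iSup_of_le
    ⟨rfl, hs, h.representable, hr, ?_⟩ le_rfl))
  rintro N hN ⟨hT, hS⟩
  by_cases hNM : (linMat F4 pt univ).IsMinor N
  · obtain rfl := hN.antisymm hNM
    obtain ⟨H, hH, hrH⟩ := exists_hyperplane hS fun h' =>
      (hs.isNonloop (a := 0) trivial).not_isLoop (h' trivial)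
    obtain ⟨a, haH⟩ : ∃ a, a ∉ H := by
      by_contra hcon
      push Not at hcon
      have := rk_mono (linMat F4 pt univ) (fun x _ => hcon x : (linMat F4 pt univ).E ⊆ H)
      omega
    obtain ⟨l, hl0, hla⟩ := h.exists_dual hH.1 trivial haH
    have hl : ∀ i, l (pt i) = pt i 0 * l (Pi.single 0 1) + pt i 1 * l (Pi.single 1 1) +
        pt i 2 * l (Pi.single 2 1) := fun i => by
      conv_lhs => rw [pi_eq_sum_univ' (pt i)]
      simp [Fin.sum_univ_three]
    rcases pt_miss (l (Pi.single 0 1)) (l (Pi.single 1 1)) (l (Pi.single 2 1)) with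
      ⟨h0, h1, h2⟩ | ⟨w, -, hw, e, f, hef, he, hf⟩
    · exact hla (by rw [hl, h0, h1, h2]; simp)
    · obtain ⟨x, hxH, hx⟩ := hH.meets hH.1.subset_ground hrH.ge
        ((linMat F4 pt univ).isFlat_closure {e, f}) (hs.rk_line trivial trivial hef)
        (Matroid.closure_subset_ground _ _)
      rw [h.mem_closure (subset_univ _), image_pair, mem_span_pair] at hx
      obtain ⟨-, s, t, hst⟩ := hx
      refine hw x ?_ ((hl x).symm.trans (hl0 x hxH))
      rw [← hst, add_dotProduct, smul_dotProduct, smul_dotProduct, he, hf]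
      simp
  · obtain ⟨C, D, hC, hD, -, rfl⟩ := hN.exists_eq_contract_delete_disjoint
    refine hT.2.2.1 ((critExpLE_iff ((h.contractSet hC).delete D) 1).2
      ((((h.contractSet hC).delete D).charPoly_pos_iff 1).1 (minor_pos h hs (by simp)
      (fun a _ => ⟨(dotProductBilin F4 F4).flip (star (pt a)), (pt_tan a a).2 rfl,
        fun e _ hea h0 => hea ((pt_tan a e).1 h0)⟩) hC hD ?_
      fun e he => by simpa using hT.1 e he e he)))
    by_contra h0
    rw [Set.not_nonempty_iff_eq_empty, Set.union_empty_iff] at h0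
    exact hNM (by simp [h0.1, h0.2, Matroid.IsMinor.refl])

end Pool.Agent.Results.MP_0e5d84_co.Counter
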